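import Pool.Agent.W958.KFinal

/-!
# Two forbidden graphs: the pair `C₄`, `2K₂`

Assume that `coNP` is not contained in `NP/poly`.  Neither `C₄`-free edge editing nor `2K₂`-free
edge editing has a polynomial kernel, but `{C₄, 2K₂}`-free edge editing is solvable in polynomial
time, and so it has a polynomial kernel.
-/

set_option autoImplicit false

namespace Pool.Agent.Results.MP_2df4ce_lc.PairEditing

open Pool.Agent.W958

theorem result :
    Pool.Agent.NPC.InPP (Editing {C4, twoK2}) ∧ HasPolyKernel (Editing {C4, twoK2}) ∧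
    (¬ Pool.Agent.CK.CoNPSubsetNPPoly →
      (¬ HasPolyKernel (Editing {C4}) ∧ ¬ HasPolyKernel (Editing {twoK2})) ∧
      ¬ ∀ H₁ H₂ : Σ n : ℕ, SimpleGraph (Fin n),
        ¬ HasPolyKernel (Editing {H₁}) → ¬ HasPolyKernel (Editing {H₂}) →
        ¬ HasPolyKernel (Editing {H₁, H₂})) := by
  refine ⟨editing_inPP, kernel_both, fun h => ⟨⟨fun h1 => h (no_kernel_C4 h1),
    fun h2 => h (no_kernel_twoK2 h2)⟩, fun hall => ?_⟩⟩
  exact hall C4 twoK2 (fun h1 => h (no_kernel_C4 h1)) (fun h2 => h (no_kernel_twoK2 h2))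
    kernel_both

end Pool.Agent.Results.MP_2df4ce_lc.PairEditing
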